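import Pool.Agent.helper47.SPI.Spec

/-!
# NUS: the sum of `nu`
-/

set_option autoImplicit false

namespace Pool.Agent.SPI

open Finset Pool.Agent.helper85.PG

theorem NUS_key {p : ℕ} [Fact p.Prime] (S : Finset (ZMod p)) (h M : ℕ) (hM : 2 * M < p) (m : ℕ)
    (hm : m ∈ Ioc M (2 * M)) :
    ∑ r : ZMod p, ((S ×ˢ range h).filter fun z => z.1 + (z.2 : ZMod p) = (m : ZMod p) * r).card =
      S.card * h := by
  rw [mem_Ioc] at hm
  have hm0 : (m : ZMod p) ≠ 0 := by
    intro h0
    rw [ZMod.natCast_eq_zero_iff] at h0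
    have := Nat.le_of_dvd (by omega) h0
    omega
  simp_rw [card_filter]
  rw [sum_comm]
  have h1 : ∀ z ∈ S ×ˢ range h,
      ∑ r : ZMod p, (if z.1 + (z.2 : ZMod p) = (m : ZMod p) * r then 1 else 0) = 1 := by
    intro z _
    rw [← card_filter, card_eq_one]
    refine ⟨(m : ZMod p)⁻¹ * (z.1 + z.2), ?_⟩
    ext r
    simp only [mem_filter, mem_univ, true_and, mem_singleton]
    constructor
    · intro h1
      rw [h1, inv_mul_cancel_left₀ hm0]
    · intro h1
      rw [h1, mul_inv_cancel_left₀ hm0]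
  rw [sum_congr rfl h1, sum_const, card_product, card_range, smul_eq_mul, mul_one]

theorem NUS : NUS_stmt := by
  intro p _ S h M hM
  have h2 : ∑ r : ZMod p, nu S h M r = M * (S.card * h) := by
    unfold nu
    rw [sum_comm, sum_congr rfl (NUS_key S h M hM), sum_const, Nat.card_Ioc, smul_eq_mul]
    congr 1
    omega
  have h3 : (∑ r : ZMod p, (nu S h M r : ℝ)) = ((∑ r : ZMod p, nu S h M r : ℕ) : ℝ) := by
    push_cast
    rfl
  rw [h3, h2]
  push_cast
  ring

end Pool.Agent.SPI
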